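import Mathlib
import Pool.Agent.Q111.CliqueCount2

/-!
# Independent domination between the levels `l` and `2` of the cube

For every `l ≥ 4`, `liminf i(G_{l,2}) / C(n,2) ≥ (l²-6)/(l(l²-3l+1)) > c_l`.
-/

namespace Pool.Agent.Results.MP_8cad3b_co.IndependentLarger

open Finset Filter Topology

/-- The vertices of `G_{l,2}(n)`: all `l`-element subsets and all `2`-element subsets of `[n]`. -/
abbrev Vtx (l n : ℕ) : Type := {s : Finset (Fin n) // s.card = l ∨ s.card = 2}

/-- The bipartite graph `G_{l,2}(n)`: an `l`-set `A` and a `2`-set `B` are adjacent if `B ⊆ A`. -/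
def G (l n : ℕ) : SimpleGraph (Vtx l n) :=
  SimpleGraph.fromRel (fun A B => A.1.card = l ∧ B.1.card = 2 ∧ B.1 ⊆ A.1)

/-- Dominating sets. -/
def IsDominating {V : Type} (Γ : SimpleGraph V) (D : Finset V) : Prop :=
  ∀ v, v ∉ D → ∃ u ∈ D, Γ.Adj v u

/-- Independent sets. -/
def IsIndependent {V : Type} (Γ : SimpleGraph V) (D : Finset V) : Prop :=
  ∀ u ∈ D, ∀ v ∈ D, ¬ Γ.Adj u v

/-- The independent domination number. -/
noncomputable def indepDom {V : Type} (Γ : SimpleGraph V) : ℕ :=
  sInf {k | ∃ D : Finset V, IsDominating Γ D ∧ IsIndependent Γ D ∧ D.card = k}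

/-- The constant `c_l = (l+3)/((l-1)(l+1))`. -/
noncomputable def c (l : ℕ) : ℝ := ((l : ℝ) + 3) / ((l - 1) * (l + 1))

/-- The constant of the lower bound, `(l²-6)/(l(l²-3l+1))`. -/
noncomputable def b (l : ℕ) : ℝ := ((l : ℝ) ^ 2 - 6) / (l * (l ^ 2 - 3 * l + 1))

theorem c_lt_b (l : ℕ) (hl : 4 ≤ l) : c l < b l := by
  have hl' : (4 : ℝ) ≤ l := by exact_mod_cast hl
  unfold c b
  rw [div_lt_div_iff₀ (by nlinarith) (by nlinarith)]
  nlinarith

/-- A maximal independent set exists, so the independent domination number is attained. -/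
theorem exists_indep_dom {V : Type} [Fintype V] [DecidableEq V] (Γ : SimpleGraph V) :
    ∃ D : Finset V, IsDominating Γ D ∧ IsIndependent Γ D := by
  classical
  have hne : ((univ : Finset (Finset V)).filter (fun D => IsIndependent Γ D)).Nonempty :=
    ⟨∅, by simp [IsIndependent]⟩
  obtain ⟨D, hD, hmax⟩ := Finset.exists_max_image _ (fun D => D.card) hne
  rw [Finset.mem_filter] at hD
  refine ⟨D, ?_, hD.2⟩
  intro v hv
  by_contra hcon
  push Not at hcon
  have hind : IsIndependent Γ (insert v D) := by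
    intro x hx y hy hxy
    rw [Finset.mem_insert] at hx hy
    rcases hx with rfl | hx <;> rcases hy with rfl | hy
    · exact Γ.loopless.irrefl _ hxy
    · exact hcon y hy hxy
    · exact hcon x hx hxy.symm
    · exact hD.2 x hx y hy hxy
  have := hmax (insert v D) (by simp [hind])
  rw [Finset.card_insert_of_notMem hv] at this
  omega

/-- The graph of the pairs that do not belong to `D`. -/
def Hd {l n : ℕ} (D : Finset (Vtx l n)) : SimpleGraph (Fin n) where
  Adj x y := x ≠ y ∧ ∀ B ∈ D, B.1 ≠ {x, y}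
  symm := ⟨by
    rintro x y ⟨h1, h2⟩
    refine ⟨h1.symm, fun B hB => ?_⟩
    rw [Finset.pair_comm]
    exact h2 B hB⟩
  loopless := ⟨by rintro x ⟨h1, _⟩; exact h1 rfl⟩

/-- Size of an independent dominating set. -/
theorem card_ge {l n : ℕ} (hl : 4 ≤ l) (D : Finset (Vtx l n)) (hdom : IsDominating (G l n) D)
    (hind : IsIndependent (G l n) D) :
    b l * (n : ℝ) ^ 2 / 2 - (n : ℝ) / 2
        - (((l : ℝ) - 2) * (l + 1) * (((l - 1).choose 2 : ℝ) * (l - 3)))
            / (2 * (l * (l ^ 2 - 3 * l + 1))) * n ≤ D.card := by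
  classical
  set H := Hd D with hH
  -- every edge of `H` lies in an `l`-clique
  have hclq : ∀ A ∈ D, A.1.card = l → H.IsNClique l A.1 := by
    intro A hA hAl
    refine ⟨?_, hAl⟩
    intro x hx y hy hxy
    refine ⟨hxy, ?_⟩
    intro B hB hBe
    have hB2 : B.1.card = 2 := by rw [hBe]; exact Finset.card_pair hxy
    have hsub : B.1 ⊆ A.1 := by
      rw [hBe]
      intro z hz
      simp only [Finset.mem_insert, Finset.mem_singleton] at hz
      rcases hz with rfl | rfl
      · exact hx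
      · exact hy
    refine hind A hA B hB ?_
    rw [G, SimpleGraph.fromRel_adj]
    refine ⟨?_, Or.inl ⟨hAl, hB2, hsub⟩⟩
    intro h
    rw [h] at hAl
    omega
  have hE : ∀ x y, H.Adj x y → ∃ T, H.IsNClique l T ∧ x ∈ T ∧ y ∈ T := by
    intro x y hxy
    have hc : ({x, y} : Finset (Fin n)).card = 2 := Finset.card_pair hxy.1
    obtain ⟨A, hA, hadj⟩ := hdom ⟨{x, y}, Or.inr hc⟩ (by
      intro hmem
      exact hxy.2 _ hmem rfl)
    rw [G, SimpleGraph.fromRel_adj] at hadj
    rcases hadj.2 with h | h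
    · have : ({x, y} : Finset (Fin n)).card = l := h.1
      omega
    · exact ⟨A.1, hclq A hA h.1, h.2.2 (by simp), h.2.2 (by simp)⟩
  have hmain := Q111.CliqueCount.edges_sub_cliques_le (H := H) hl hE
  -- every `l`-clique of `H` belongs to `D`
  have hcl : ∀ T ∈ H.cliqueFinset l, ∃ A ∈ D, A.1 = T := by
    intro T hT
    rw [SimpleGraph.mem_cliqueFinset_iff] at hT
    by_contra hcon
    push Not at hcon
    obtain ⟨B, hB, hadj⟩ := hdom ⟨T, Or.inl hT.card_eq⟩ (fun hmem => hcon _ hmem rfl)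
    rw [G, SimpleGraph.fromRel_adj] at hadj
    rcases hadj.2 with h | h
    · obtain ⟨x, y, hxy, hBe⟩ := Finset.card_eq_two.mp h.2.1
      have hsub := h.2.2
      have hx : x ∈ T := hsub (by rw [hBe]; simp)
      have hy : y ∈ T := hsub (by rw [hBe]; simp)
      have : H.Adj x y := hT.isClique hx hy hxy
      exact this.2 B hB hBe
    · have h1 : T.card = 2 := h.2.1
      rw [hT.card_eq] at h1
      omega
  -- counting the members of `D`
  have hDl : (H.cliqueFinset l).card ≤ (D.filter (fun A => A.1.card = l)).card := by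
    have h1 : H.cliqueFinset l ⊆ (D.filter (fun A => A.1.card = l)).image (fun A => A.1) := by
      intro T hT
      obtain ⟨A, hA, hAT⟩ := hcl T hT
      rw [Finset.mem_image]
      refine ⟨A, ?_, hAT⟩
      rw [Finset.mem_filter]
      refine ⟨hA, ?_⟩
      rw [hAT]
      exact (SimpleGraph.mem_cliqueFinset_iff.mp hT).card_eq
    exact (Finset.card_le_card h1).trans Finset.card_image_le
  have hD2 : n.choose 2 ≤ H.edgeFinset.card + (D.filter (fun A => A.1.card = 2)).card := by
    have h1 : (univ : Finset (Fin n)).powersetCard 2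
        ⊆ H.edgeFinset.image (fun e => univ.filter (fun v => v ∈ e))
          ∪ (D.filter (fun A => A.1.card = 2)).image (fun A => A.1) := by
      intro P hP
      rw [Finset.mem_powersetCard] at hP
      obtain ⟨x, y, hxy, rfl⟩ := Finset.card_eq_two.mp hP.2
      rw [Finset.mem_union]
      by_cases hadj : H.Adj x y
      · left
        rw [Finset.mem_image]
        refine ⟨s(x, y), ?_, ?_⟩
        · rw [SimpleGraph.mem_edgeFinset, SimpleGraph.mem_edgeSet]; exact hadj
        · ext v; simp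
      · right
        have : ∃ B ∈ D, B.1 = {x, y} := by
          by_contra hcon
          push Not at hcon
          exact hadj ⟨hxy, hcon⟩
        obtain ⟨B, hB, hBe⟩ := this
        rw [Finset.mem_image]
        refine ⟨B, ?_, hBe⟩
        rw [Finset.mem_filter]
        exact ⟨hB, by rw [hBe]; exact hP.2⟩
    have h2 := Finset.card_le_card h1
    rw [Finset.card_powersetCard, Finset.card_univ, Fintype.card_fin] at h2
    exact h2.trans ((Finset.card_union_le _ _).trans
      (Nat.add_le_add Finset.card_image_le Finset.card_image_le))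
  have hD : (D.filter (fun A => A.1.card = l)).card + (D.filter (fun A => A.1.card = 2)).card
      ≤ D.card := by
    rw [← Finset.card_union_of_disjoint]
    · exact Finset.card_le_card (Finset.union_subset (Finset.filter_subset _ _)
        (Finset.filter_subset _ _))
    · rw [Finset.disjoint_filter]
      intro A _ h1 h2
      omega
  have hl' : (4 : ℝ) ≤ l := by exact_mod_cast hl
  have hfin : (n.choose 2 : ℝ) - ((H.edgeFinset.card : ℝ) - (H.cliqueFinset l).card) ≤ D.card := by
    have h1 : n.choose 2 + (H.cliqueFinset l).card ≤ H.edgeFinset.card + D.card := by omega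
    have h2 : ((n.choose 2 : ℕ) : ℝ) + ((H.cliqueFinset l).card : ℝ)
        ≤ (H.edgeFinset.card : ℝ) + (D.card : ℝ) := by exact_mod_cast h1
    linarith
  rw [Nat.cast_choose_two] at hfin
  rw [Fintype.card_fin] at hmain
  set P : ℝ := (l : ℝ) * (l ^ 2 - 3 * l + 1) with hP
  have hPpos : 0 < P := by rw [hP]; nlinarith
  set C : ℝ := ((l - 1).choose 2 : ℝ)
  set E : ℝ := (H.edgeFinset.card : ℝ)
  set k : ℝ := ((H.cliqueFinset l).card : ℝ)
  have h5 : E - k ≤ ((l - 2) * (l + 1) * ((l - 3) * (n : ℝ) ^ 2 + C * (l - 3) * n)) / (2 * P) := by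
    rw [le_div_iff₀ (by positivity)]
    linarith
  have h6 : b l = 1 - ((l : ℝ) - 2) * (l + 1) * (l - 3) / P := by
    unfold b
    rw [← hP]
    rw [eq_sub_iff_add_eq, ← add_div, div_eq_one_iff_eq hPpos.ne', hP]
    ring
  have h7 : b l * (n : ℝ) ^ 2 / 2 - (n : ℝ) / 2
        - (((l : ℝ) - 2) * (l + 1) * (C * (l - 3))) / (2 * P) * n
      = (n : ℝ) * (n - 1) / 2
        - ((l - 2) * (l + 1) * ((l - 3) * (n : ℝ) ^ 2 + C * (l - 3) * n)) / (2 * P) := by
    rw [h6]
    field_simp
    ring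
  rw [h7]
  linarith

/-- The independent domination number is attained. -/
theorem indepDom_spec {V : Type} [Fintype V] [DecidableEq V] (Γ : SimpleGraph V) :
    ∃ D : Finset V, IsDominating Γ D ∧ IsIndependent Γ D ∧ D.card = indepDom Γ := by
  obtain ⟨D, h1, h2⟩ := exists_indep_dom Γ
  exact Nat.sInf_mem
    (s := {k | ∃ D : Finset V, IsDominating Γ D ∧ IsIndependent Γ D ∧ D.card = k})
    ⟨D.card, D, h1, h2, rfl⟩

/-- The `2`-element sets form an independent dominating set. -/
theorem indepDom_le {l n : ℕ} (hl : 4 ≤ l) : indepDom (G l n) ≤ n.choose 2 := by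
  classical
  set D : Finset (Vtx l n) := univ.filter (fun A => A.1.card = 2) with hD
  have h1 : IsDominating (G l n) D := by
    intro A hA
    have hA2 : A.1.card ≠ 2 := fun h => hA (by rw [hD, Finset.mem_filter]; exact ⟨mem_univ _, h⟩)
    have hAl : A.1.card = l := A.2.resolve_right hA2
    obtain ⟨B, hBA, hB⟩ := Finset.exists_subset_card_eq (s := A.1) (n := 2) (by omega)
    refine ⟨⟨B, Or.inr hB⟩, ?_, ?_⟩
    · rw [hD, Finset.mem_filter]; exact ⟨mem_univ _, hB⟩
    · rw [G, SimpleGraph.fromRel_adj]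
      refine ⟨?_, Or.inl ⟨hAl, hB, hBA⟩⟩
      intro h
      rw [h] at hA2
      exact hA2 hB
  have h2 : IsIndependent (G l n) D := by
    intro A hA B hB hadj
    rw [hD, Finset.mem_filter] at hA hB
    rw [G, SimpleGraph.fromRel_adj] at hadj
    rcases hadj.2 with h | h
    · have := h.1; have := hA.2; omega
    · have := h.1; have := hB.2; omega
  have h3 : indepDom (G l n) ≤ D.card := Nat.sInf_le ⟨D, h1, h2, rfl⟩
  refine h3.trans ?_
  have h4 : D.image (fun A => A.1) ⊆ (univ : Finset (Fin n)).powersetCard 2 := by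
    intro P hP
    obtain ⟨A, hA, rfl⟩ := Finset.mem_image.mp hP
    rw [hD, Finset.mem_filter] at hA
    rw [Finset.mem_powersetCard]
    exact ⟨Finset.subset_univ _, hA.2⟩
  have h5 := Finset.card_le_card h4
  rw [Finset.card_powersetCard, Finset.card_univ, Fintype.card_fin,
    Finset.card_image_of_injective _ Subtype.val_injective] at h5
  exact h5

/-- The constant in the error term. -/
noncomputable def K (l : ℕ) : ℝ :=
  (((l : ℝ) - 2) * (l + 1) * (((l - 1).choose 2 : ℝ) * (l - 3))) / (2 * (l * (l ^ 2 - 3 * l + 1)))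

theorem b_pos {l : ℕ} (hl : 4 ≤ l) : 0 < b l := by
  have hl' : (4 : ℝ) ≤ l := by exact_mod_cast hl
  unfold b
  apply div_pos <;> nlinarith

theorem K_nonneg {l : ℕ} (hl : 4 ≤ l) : 0 ≤ K l := by
  have hl' : (4 : ℝ) ≤ l := by exact_mod_cast hl
  unfold K
  apply div_nonneg
  · apply mul_nonneg
    · apply mul_nonneg <;> linarith
    · apply mul_nonneg
      · positivity
      · linarith
  · nlinarith

/-- A lower bound valid for every `n`. -/
theorem indepDom_ge' {l : ℕ} (hl : 4 ≤ l) (n : ℕ) :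
    b l * (n : ℝ) ^ 2 / 2 - (n : ℝ) / 2 - K l * n ≤ indepDom (G l n) := by
  classical
  obtain ⟨D, h1, h2, h3⟩ := indepDom_spec (G l n)
  rw [← h3]
  exact card_ge hl D h1 h2

/-- A lower bound valid for every `n ≥ 2`. -/
theorem indepDom_ge {l : ℕ} (hl : 4 ≤ l) (n : ℕ) (hn : 2 ≤ n) :
    (b l - (1 + 2 * K l) / ((n : ℝ) - 1)) * (n.choose 2 : ℝ) ≤ indepDom (G l n) := by
  refine le_trans ?_ (indepDom_ge' hl n)
  have hn' : (2 : ℝ) ≤ n := by exact_mod_cast hn
  have hb := b_pos hl
  rw [Nat.cast_choose_two]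
  have h1 : (b l - (1 + 2 * K l) / ((n : ℝ) - 1)) * ((n : ℝ) * (n - 1) / 2)
      = b l * ((n : ℝ) * (n - 1) / 2) - (1 + 2 * K l) * n / 2 := by
    have : (n : ℝ) - 1 ≠ 0 := by linarith
    field_simp
  rw [h1]
  nlinarith

theorem tendsto_err (C : ℝ) : Tendsto (fun n : ℕ => C / ((n : ℝ) - 1)) atTop (𝓝 0) := by
  refine Tendsto.div_atTop tendsto_const_nhds ?_
  exact tendsto_atTop_add_const_right _ _ tendsto_natCast_atTop_atTop

/-- **Result.**  Let `b_l = (l²-6)/(l(l²-3l+1))`.  For every `l ≥ 4`: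

* `c_l < b_l`;
* `i(G_{l,2}(n)) ≥ (b_l - o(1)) C(n,2)`, with an explicit error term `O(1/n)`;
* there is `ε > 0` with `i(G_{l,2}(n)) ≥ (c_l + ε - o(1)) C(n,2)`;
* `liminf i(G_{l,2}(n)) / C(n,2) ≥ b_l > c_l`. -/
theorem result :
    ∀ l : ℕ, 4 ≤ l →
      c l < b l ∧
      (∃ C : ℝ, ∀ n : ℕ, 2 ≤ n →
        (b l - C / ((n : ℝ) - 1)) * (n.choose 2 : ℝ) ≤ indepDom (G l n)) ∧
      (∃ ε : ℝ, 0 < ε ∧ ∃ o : ℕ → ℝ, Tendsto o atTop (𝓝 0) ∧
        ∀ n : ℕ, l ≤ n → (c l + ε - o n) * (n.choose 2 : ℝ) ≤ indepDom (G l n)) ∧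
      c l < liminf (fun n : ℕ => (indepDom (G l n) : ℝ) / (n.choose 2 : ℝ)) atTop ∧
      b l ≤ liminf (fun n : ℕ => (indepDom (G l n) : ℝ) / (n.choose 2 : ℝ)) atTop := by
  intro l hl
  have hcb := c_lt_b l hl
  have hlim : b l ≤ liminf (fun n : ℕ => (indepDom (G l n) : ℝ) / (n.choose 2 : ℝ)) atTop := by
    have hbdd : IsCoboundedUnder (· ≥ ·) atTop
        (fun n : ℕ => (indepDom (G l n) : ℝ) / (n.choose 2 : ℝ)) := by
      apply IsBoundedUnder.isCoboundedUnder_ge
      refine ⟨1, ?_⟩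
      rw [eventually_map]
      filter_upwards [eventually_ge_atTop 2] with n hn
      have h1 : (0 : ℝ) < (n.choose 2 : ℝ) := by exact_mod_cast Nat.choose_pos hn
      rw [div_le_one h1]
      exact_mod_cast indepDom_le hl
    refine le_of_forall_sub_le ?_
    intro δ hδ
    refine le_liminf_of_le hbdd ?_
    have herr := (tendsto_err (1 + 2 * K l)).eventually (gt_mem_nhds hδ)
    filter_upwards [herr, eventually_ge_atTop 2] with n hn hn2
    have h1 : (0 : ℝ) < (n.choose 2 : ℝ) := by exact_mod_cast Nat.choose_pos hn2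
    rw [le_div_iff₀ h1]
    refine le_trans ?_ (indepDom_ge hl n hn2)
    apply mul_le_mul_of_nonneg_right _ h1.le
    linarith
  refine ⟨hcb, ⟨1 + 2 * K l, fun n hn => indepDom_ge hl n hn⟩, ⟨b l - c l, by linarith,
    fun n => (1 + 2 * K l) / ((n : ℝ) - 1), tendsto_err _, ?_⟩, lt_of_lt_of_le hcb hlim, hlim⟩
  intro n hn
  have h := indepDom_ge hl n (by omega)
  have h2 : c l + (b l - c l) = b l := by ring
  rw [h2]
  exact h

end Pool.Agent.Results.MP_8cad3b_co.IndependentLarger
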